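import Pool.Agent.Run7.h596.UD.Peel
import Pool.Agent.Run7.h596.UD.Star

set_option autoImplicit false

/-!
# Uniform dimension and amenable quotients with unique products

Let `N` be a normal subgroup of `G` such that `Q = G / N` is amenable and has unique products (for instance, `Q` is
amenable and has a linear order which is invariant on one side). We show that the group rings of `G` and of `N` over the
complex numbers, or over any ring `k` for which `k[N]` is right nonsingular, have the same uniform dimension. So the uniform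
dimension is finite for the groups which contain such a group `G` as a subgroup of finite index, if it is finite for `N`, for
instance if `N` is a finite group.

Proof. Let `I_1 ⊕ ⋯ ⊕ I_n` be a direct sum of right ideals of `k[G]`, let `α_j ∈ I_j` be nonzero, and let `F ⊆ Q` be a
finite set. By unique products and since `k[N]` is nonsingular there are `γ_f ∈ k[N]`, `f ∈ F`, such that the right
`k[N]`-submodules generated by the `α_j f γ_f` are nonzero and independent. They are supported in the cosets in `P`, where `P`
contains all the products of the cosets which meet the support of `α_j` by the elements of `F`. The independent families in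
a free module over `k[N]` of rank `|P|` have at most `|P| udim k[N]` members. So `n |F| ≤ |P| udim k[N]`, and by Følner's
condition `|P| / |F|` can be made as close to `1` as we like.
-/

namespace Pool.Agent.Results.MP_529953_al.UniqueProductQuotients

open Finset MonoidAlgebra Run7.h596.UD

/-- The right uniform dimension of a ring: the supremum of all `n` such that the ring contains a
direct sum of `n` nonzero right ideals. -/
noncomputable def udim (R : Type*) [Ring R] : ℕ∞ :=
  ⨆ (n : ℕ) (_ : ∃ I : Fin n → Submodule Rᵐᵒᵖ R, (∀ i, I i ≠ ⊥) ∧ iSupIndep I), (n : ℕ∞)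

/-- Følner's condition, which is equivalent to the amenability of `Q`: for every finite `E ⊆ Q` and `ε > 0` there is a
finite nonempty `F ⊆ Q` such that `E F` has at most `(1 + ε) |F|` elements. -/
def Folner (Q : Type*) [Group Q] : Prop :=
  ∀ (E : Finset Q) (ε : ℝ), 0 < ε → ∃ F P : Finset Q, F.Nonempty ∧
    (∀ e ∈ E, ∀ f ∈ F, e * f ∈ P) ∧ (P.card : ℝ) ≤ (1 + ε) * F.card

/-- The ring `S` is right nonsingular: for each `β ≠ 0` in `S` there is a nonzero right ideal, generated by some `γ`, which
meets the right annihilator of `β` only in `0`. -/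
def RightNonsingular (S : Type*) [Ring S] : Prop :=
  ∀ β : S, β ≠ 0 → ∃ γ : S, γ ≠ 0 ∧ ∀ y, β * γ * y = 0 → γ * y = 0

theorem ind_comp {S R κ l : Type*} [Ring S] [Ring R] {ι : S →+* R} {J : Finset κ} {x : κ → R}
    (h : Ind ι J x) (e : l ↪ κ) (s : Finset l) (he : ∀ j ∈ s, e j ∈ J) :
    Ind ι s (fun j => x (e j)) := by
  have h1 : Ind ι (s.map e) x := h.mono (by
    intro a ha
    obtain ⟨j, hj, rfl⟩ := mem_map.1 ha
    exact he j hj)
  refine ⟨fun j hj => h.1 _ (he j hj), fun y hy j hj => ?_⟩
  have h2 := h1.2 (Function.extend e y 0) (by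
    rw [sum_map, ← hy]
    exact sum_congr rfl fun j _ => by rw [e.injective.extend_apply]) (e j) (mem_map_of_mem e hj)
  rwa [e.injective.extend_apply] at h2

theorem card_le_udim {S κ : Type*} [Ring S] (J : Finset κ) (x : κ → S)
    (h : Ind (RingHom.id S) J x) : (J.card : ℕ∞) ≤ udim S := by
  unfold udim
  refine le_iSup₂_of_le J.card
    ⟨fun i => Submodule.span Sᵐᵒᵖ {x (J.equivFin.symm i)}, fun i => ?_, ?_⟩ le_rfl
  · rw [Ne, Submodule.span_singleton_eq_bot]
    exact h.1 _ (J.equivFin.symm i).2
  · rw [iSupIndep_iff_finsetSum_eq_zero_imp_eq_zero]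
    intro s v hv h0 i hi
    have h1 : ∀ j ∈ s, ∃ c : S, x (J.equivFin.symm j) * c = v j := by
      intro j hj
      obtain ⟨c, hc⟩ := Submodule.mem_span_singleton.1 (hv j hj)
      exact ⟨c.unop, hc⟩
    choose! c hc using h1
    have h2 := ind_comp h (J.equivFin.symm.toEmbedding.trans (Function.Embedding.subtype _)) s
      (fun j _ => (J.equivFin.symm j).2)
    have h3 := h2.2 c (by
      rw [← h0]
      exact sum_congr rfl fun j hj => hc j hj) i hi
    rw [← hc i hi]
    exact h3

variable {k G : Type*} [Ring k] [Group G] (N : Subgroup G)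

theorem le_of_family [N.Normal] [UniqueProds (G ⧸ N)] (hF : Folner (G ⧸ N))
    (hS : RightNonsingular (MonoidAlgebra k N)) {u : ℕ} (hu : udim (MonoidAlgebra k N) = u)
    (n : ℕ) (I : Fin n → Submodule (MonoidAlgebra k G)ᵐᵒᵖ (MonoidAlgebra k G))
    (h0 : ∀ i, I i ≠ ⊥) (h1 : iSupIndep I) : n ≤ u := by
  classical
  have hα : ∀ j, ∃ α ∈ I j, α ≠ 0 := fun j => Submodule.exists_mem_ne_zero_of_ne_bot (h0 j)
  choose α hαI hα0 using hα
  obtain ⟨F, P, hFn, hP, hcard⟩ := hF (univ.biUnion fun j => cosets N (α j)) (1 / (u + 1))
    (by positivity)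
  have hpeel : ∀ j, ∃ γ : (G ⧸ N) → MonoidAlgebra k N,
      Ind (inc N) F (fun f => α j * single f.out 1 * inc N (γ f)) :=
    fun j => peel N hS (hα0 j) F.card F rfl
  choose γ hγ using hpeel
  have hind : Ind (inc N) ((univ : Finset (Fin n)) ×ˢ F)
      (fun a : Fin n × (G ⧸ N) => α a.1 * single a.2.out 1 * inc N (γ a.1 a.2)) := by
    refine ⟨fun a ha => (hγ a.1).1 a.2 (mem_product.1 ha).2, fun y hy a ha => ?_⟩
    rw [sum_product] at hy
    have hv := (iSupIndep_iff_finsetSum_eq_zero_imp_eq_zero I).1 h1 univ
      (fun j => ∑ f ∈ F, α j * single f.out 1 * inc N (γ j f) * inc N (y (j, f)))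
      (fun j _ => Submodule.sum_mem _ fun f _ => by
        rw [mul_assoc, mul_assoc]
        exact (I j).smul_mem (MulOpposite.op _) (hαI j)) hy a.1 (mem_univ _)
    exact (hγ a.1).2 (fun f => y (a.1, f)) hv a.2 (mem_product.1 ha).2
  have hle := count (inc N) (phi N) (u := u) (phi_mul N) (eq_zero_of_phi N)
    (fun J x hx => by
      have := card_le_udim J x hx
      rw [hu] at this
      exact_mod_cast this) P _ _ hind (by
      intro a ha q hq
      have hz : phi N q (α a.1 * single a.2.out 1) = 0 := by
        refine phi_zero N fun c hc hcq => hq ?_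
        rw [← hcq]
        exact hP c (mem_biUnion.2 ⟨a.1, mem_univ _, hc⟩) _ (mem_product.1 ha).2
      show phi N q (α a.1 * single a.2.out 1 * inc N (γ a.1 a.2)) = 0
      rw [phi_mul, hz, zero_mul])
  rw [card_product, card_univ, Fintype.card_fin] at hle
  have h2 : (n : ℝ) * F.card ≤ u * P.card := by exact_mod_cast hle
  have h3 : (0 : ℝ) < F.card := by exact_mod_cast card_pos.2 hFn
  have h4 : (n : ℝ) * F.card ≤ (u * (1 + 1 / (u + 1))) * F.card := by
    calc (n : ℝ) * F.card ≤ u * P.card := h2
      _ ≤ u * ((1 + 1 / (u + 1)) * F.card) := mul_le_mul_of_nonneg_left hcard (Nat.cast_nonneg _)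
      _ = _ := by ring
  have h5 : (n : ℝ) ≤ u * (1 + 1 / (u + 1)) := le_of_mul_le_mul_right h4 h3
  have h6 : (u : ℝ) * (1 + 1 / (u + 1)) < u + 1 := by
    have h7 : (u : ℝ) * (1 / (u + 1)) < 1 := by
      rw [mul_one_div, div_lt_one (by positivity)]
      linarith
    linarith
  have h7 : (n : ℝ) < (u : ℝ) + 1 := lt_of_le_of_lt h5 h6
  have h8 : n < u + 1 := by exact_mod_cast h7
  omega

/-- the component at the right coset -/
noncomputable def psi (t : G) : MonoidAlgebra k G →+ MonoidAlgebra k N where
  toFun x := ofCoeff (x.coeff.comapDomain (fun n : N => (n : G) * t)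
    (fun _ _ _ _ h => Subtype.ext (mul_right_cancel h)))
  map_zero' := by ext n; rfl
  map_add' x y := by ext n; rfl

theorem psi_coeff (t : G) (x : MonoidAlgebra k G) (n : N) :
    (psi N t x).coeff n = x.coeff (n * t) := rfl

theorem psi_mul (t : G) (x : MonoidAlgebra k N) (y : MonoidAlgebra k G) :
    psi N t (inc N x * y) = x * psi N t y := by
  induction x using MonoidAlgebra.induction_linear with
  | zero => rw [map_zero, zero_mul, zero_mul, map_zero]
  | add a b ha hb => rw [map_add, add_mul, map_add, ha, hb, add_mul]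
  | single m b =>
    ext n
    have h1 : inc N (single m b) = single (m : G) b := mapDomain_single
    rw [h1, psi_coeff, coeff_single_mul_apply, coeff_single_mul_apply, psi_coeff]
    simp [mul_assoc]

theorem udim_subgroup_le : udim (MonoidAlgebra k N) ≤ udim (MonoidAlgebra k G) := by
  unfold udim
  refine iSup₂_le fun n hn => ?_
  obtain ⟨I, h0, h1⟩ := hn
  have hα : ∀ j, ∃ α ∈ I j, α ≠ 0 := fun j => Submodule.exists_mem_ne_zero_of_ne_bot (h0 j)
  choose α hαI hα0 using hα
  have hind : Ind (RingHom.id (MonoidAlgebra k G)) (univ : Finset (Fin n))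
      (fun j => inc N (α j)) := by
    have hzero : ∀ z : MonoidAlgebra k G, (∀ t, psi N t z = 0) → z = 0 := by
      intro z hz
      ext t
      have h2 := congrArg (fun w : MonoidAlgebra k N => w.coeff 1) (hz t)
      simpa [psi_coeff] using h2
    refine ⟨fun j _ h => hα0 j ?_, fun y hy j hj => ?_⟩
    · have h2 := psi_mul N 1 (α j) 1
      beta_reduce at h
      rw [h, zero_mul, map_zero] at h2
      have h3 : psi N 1 (1 : MonoidAlgebra k G) = (1 : MonoidAlgebra k N) := by
        ext n
        rw [psi_coeff, mul_one, one_def, one_def, coeff_single, coeff_single]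
        classical
        rw [Finsupp.single_apply, Finsupp.single_apply]
        simp [eq_comm]
      rw [h3, mul_one] at h2
      exact h2.symm
    · refine hzero _ fun t => ?_
      show psi N t (inc N (α j) * y j) = 0
      rw [psi_mul]
      refine (iSupIndep_iff_finsetSum_eq_zero_imp_eq_zero I).1 h1 univ
        (fun j => α j * psi N t (y j)) (fun j _ => (I j).smul_mem (MulOpposite.op _) (hαI j))
        ?_ j (mem_univ _)
      have h2 := congrArg (psi N t) hy
      rw [map_sum, map_zero] at h2
      rw [← h2]
      exact sum_congr rfl fun j _ => (psi_mul N t _ _).symm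
  have h2 := card_le_udim _ _ hind
  rw [card_univ, Fintype.card_fin] at h2
  exact h2

theorem udim_le [N.Normal] [UniqueProds (G ⧸ N)] (hF : Folner (G ⧸ N))
    (hS : RightNonsingular (MonoidAlgebra k N)) :
    udim (MonoidAlgebra k G) ≤ udim (MonoidAlgebra k N) := by
  by_cases htop : udim (MonoidAlgebra k N) = ⊤
  · rw [htop]
    exact le_top
  · obtain ⟨u, hu⟩ := ENat.ne_top_iff_exists.1 htop
    have h : udim (MonoidAlgebra k G) ≤ (u : ℕ∞) := by
      unfold udim
      refine iSup₂_le fun n hn => ?_
      obtain ⟨I, h0, h1⟩ := hn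
      exact_mod_cast le_of_family N hF hS hu.symm n I h0 h1
    rwa [hu] at h

/-- the group algebra of a finite group -/
theorem udim_finite_le {H : Type*} [Group H] [Finite H] :
    udim (MonoidAlgebra ℂ H) ≤ (Nat.card H : ℕ∞) := by
  classical
  unfold udim
  refine iSup₂_le fun n hn => ?_
  obtain ⟨I, h0, h1⟩ := hn
  have hα : ∀ j, ∃ α ∈ I j, α ≠ 0 := fun j => Submodule.exists_mem_ne_zero_of_ne_bot (h0 j)
  choose α hαI hα0 using hα
  have hmul : ∀ (c : ℂ) (x : MonoidAlgebra ℂ H), c • x = x * single 1 c := by
    intro c x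
    ext h
    rw [coeff_mul_single_one, coeff_smul, Finsupp.smul_apply, smul_eq_mul, mul_comm]
  have hlin : LinearIndependent ℂ α := by
    rw [Fintype.linearIndependent_iff]
    intro c hc j
    have h2 := (iSupIndep_iff_finsetSum_eq_zero_imp_eq_zero I).1 h1 univ (fun j => c j • α j)
      (fun j _ => by
        rw [hmul]
        exact (I j).smul_mem (MulOpposite.op _) (hαI j)) hc j (mem_univ _)
    exact (smul_eq_zero.1 h2).resolve_right (hα0 j)
  have : Fintype H := Fintype.ofFinite H
  let e : MonoidAlgebra ℂ H ≃ₗ[ℂ] (H →₀ ℂ) := coeffLinearEquiv ℂ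
  have : Module.Finite ℂ (MonoidAlgebra ℂ H) := Module.Finite.equiv e.symm
  have h2 := hlin.fintype_card_le_finrank
  rw [Fintype.card_fin, e.finrank_eq, Module.finrank_finsupp_self, ← Nat.card_eq_fintype_card] at h2
  exact_mod_cast h2

/-- subgroups of finite index -/
theorem udim_le_index (H : Subgroup G) [H.FiniteIndex] :
    udim (MonoidAlgebra k G) ≤ H.index * udim (MonoidAlgebra k H) := by
  classical
  have hfin : Finite (G ⧸ H) := H.finite_quotient_of_finiteIndex
  have hft : Fintype (G ⧸ H) := Fintype.ofFinite _
  have hidx : H.index = (univ : Finset (G ⧸ H)).card := by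
    rw [card_univ, ← Nat.card_eq_fintype_card]
    rfl
  have hpos : H.index ≠ 0 := Subgroup.FiniteIndex.index_ne_zero
  by_cases htop : udim (MonoidAlgebra k H) = ⊤
  · rw [htop, ENat.mul_top (by exact_mod_cast hpos)]
    exact le_top
  · obtain ⟨u, hu⟩ := ENat.ne_top_iff_exists.1 htop
    have h : udim (MonoidAlgebra k G) ≤ ((H.index * u : ℕ) : ℕ∞) := by
      unfold udim
      refine iSup₂_le fun n hn => ?_
      obtain ⟨I, h0, h1⟩ := hn
      have hα : ∀ j, ∃ α ∈ I j, α ≠ 0 := fun j => Submodule.exists_mem_ne_zero_of_ne_bot (h0 j)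
      choose α hαI hα0 using hα
      have hind : Ind (inc H) (univ : Finset (Fin n)) α := by
        refine ⟨fun j _ => hα0 j, fun y hy j hj => ?_⟩
        exact (iSupIndep_iff_finsetSum_eq_zero_imp_eq_zero I).1 h1 univ
          (fun j => α j * inc H (y j)) (fun j _ => (I j).smul_mem (MulOpposite.op _) (hαI j))
          hy j hj
      have hle := count (inc H) (phi H) (u := u) (phi_mul H) (eq_zero_of_phi H)
        (fun J x hx => by
          have := card_le_udim J x hx
          rw [← hu] at this
          exact_mod_cast this) univ _ _ hind (fun j _ q hq => absurd (mem_univ q) hq)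
      rw [card_univ, Fintype.card_fin, ← hidx, mul_comm] at hle
      exact_mod_cast hle
    rw [← hu]
    exact_mod_cast h

/-- **Uniform dimension and amenable quotients with unique products.** Let `H` be a subgroup of finite index of `G` and let
`N` be a normal subgroup of `H` such that `H / N` is amenable and has unique products. (1) The complex group rings of `H` and
`N` have the same uniform dimension (which may be infinite), and the uniform dimension of the complex group ring of `G` is at
most `[G : H]` times this number. (2) If `N` is finite, then it is at most `[G : H] |N|`. (3) As (1), over every ring `k` such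
that `k[N]` is right nonsingular. -/
theorem result {G : Type} [Group G] (H : Subgroup G) [H.FiniteIndex] (N : Subgroup H) [N.Normal]
    [UniqueProds (H ⧸ N)] (hF : Folner (H ⧸ N)) :
    (udim (MonoidAlgebra ℂ H) = udim (MonoidAlgebra ℂ N) ∧
      udim (MonoidAlgebra ℂ G) ≤ H.index * udim (MonoidAlgebra ℂ N)) ∧
    (Finite N → udim (MonoidAlgebra ℂ G) ≤ H.index * Nat.card N) ∧
    ∀ (k : Type) [Ring k], RightNonsingular (MonoidAlgebra k N) →
      udim (MonoidAlgebra k H) = udim (MonoidAlgebra k N) ∧
      udim (MonoidAlgebra k G) ≤ H.index * udim (MonoidAlgebra k N) := by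
  have h1 : udim (MonoidAlgebra ℂ H) = udim (MonoidAlgebra ℂ N) :=
    le_antisymm (udim_le N hF nonsing_complex) (udim_subgroup_le N)
  refine ⟨⟨h1, h1 ▸ udim_le_index H⟩, fun _ => ?_, fun k _ h => ?_⟩
  · refine (udim_le_index H).trans ?_
    rw [h1]
    exact mul_le_mul_right udim_finite_le _
  · have h2 : udim (MonoidAlgebra k H) = udim (MonoidAlgebra k N) :=
      le_antisymm (udim_le N hF h) (udim_subgroup_le N)
    exact ⟨h2, h2 ▸ udim_le_index H⟩

end Pool.Agent.Results.MP_529953_al.UniqueProductQuotients
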